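import Pool.Agent.Q277.DDs.Fin
import Pool.Agent.Q34.DDs.Comb

set_option autoImplicit false

namespace Pool.Agent.Results.MP_452684_co.Alternation

/-- `w` is a permutation of `{1,…,n}`, its entry `w_i` (`1 ≤ i ≤ n`) is the value of `w` at the
element `i - 1` of `Fin n` (so the entries are shifted by one, which does not change comparisons).
`i` is a double descent of `w` if `2 ≤ i ≤ n - 1` and `w_{i-1} > w_i > w_{i+1}`. -/
def IsDoubleDescent {n : ℕ} (w : Equiv.Perm (Fin n)) (i : ℕ) : Prop :=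
  ∃ (h1 : 2 ≤ i) (h2 : i + 1 ≤ n),
    w ⟨i - 1, by omega⟩ < w ⟨i - 2, by omega⟩ ∧ w ⟨i, by omega⟩ < w ⟨i - 1, by omega⟩

/-- `dd(I;n)`: the number of permutations of `[n]` whose set of double descents is `I` -/
noncomputable def dd (I : Set ℕ) (n : ℕ) : ℕ :=
  Nat.card {w : Equiv.Perm (Fin n) // {i | IsDoubleDescent w i} = I}

/-- Q1: along `i = 2, 3, …, ⌈n/2⌉` the counts `dd({i};n)` alternately decrease and increase. -/
theorem result : ∀ n i : ℕ, 1 ≤ n → 2 ≤ i → i < ⌈(n : ℝ) / 2⌉₊ →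
    (Even i → dd {i} n > dd {i + 1} n) ∧ (Odd i → dd {i} n < dd {i + 1} n) := by
  intro n i _ h2 hi
  have hn : 2 * i < n := by
    rw [Nat.lt_ceil] at hi
    have h : (2 * i : ℝ) < n := by linarith
    exact_mod_cast h
  have h := Pool.Agent.Q277.DDs.main Pool.Agent.Q34.DDs.comb n i h2 hn
  have e : ∀ I : Set ℕ, Pool.Agent.Q277.DDs.dd I n = dd I n := fun I => rfl
  rw [e, e] at h
  constructor
  · intro hev
    rw [hev.neg_one_pow, one_mul] at h
    have h' : ((dd {i + 1} n : ℕ) : ℝ) < (dd {i} n : ℕ) := by linarith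
    exact_mod_cast h'
  · intro hodd
    rw [hodd.neg_one_pow] at h
    have h' : ((dd {i} n : ℕ) : ℝ) < (dd {i + 1} n : ℕ) := by linarith
    exact_mod_cast h'

end Pool.Agent.Results.MP_452684_co.Alternation
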